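import Mathlib

/-!
# Maximality of the associated order in the canonical nonclassical Hopf-Galois structure

If `L/K` is a Galois extension of `p`-adic fields with group `G` and `p ∤ [L:K]`, then the
associated order of the ring of integers of `L` in `H_λ = L[λ(G)]^G` is a maximal order of `H_λ`.

Proof. The action of `H_λ` on `L` identifies `H_λ` with the algebra of all `K`-linear maps `L → L`
commuting with `G`. Let `Γ` be an order containing the associated order, and let `γ ∈ Γ`. For
`a` in `O_L` and `b` in the inverse different, the average over `G` of the conjugates of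
`x ↦ Tr(b x) a` commutes with `G` and preserves `O_L`, so it is the action of some `β` in the
associated order. Now `γ β ∈ Γ` is integral over `O_K`, so its trace as an endomorphism of `L` is
in `O_K`. This trace is `Tr(b (γ · a))`. Hence `γ · a` is in the dual of the inverse
different, which is `O_L`.
-/

set_option autoImplicit false

open Polynomial TensorProduct nonZeroDivisors

namespace Pool.Agent.Results.MP_46c6cb_nt.AssociatedOrder

/-! ## The definitions -/

/-- `S` is an `O`-order of the `K`-algebra `H` (a subalgebra of `A`): a subset of `H` which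
contains `1`, is closed under multiplication, is a finitely generated `O`-submodule, and spans `H`
over `K`. -/
structure IsOrder (O : Type*) {K A : Type*} [CommRing O] [Field K] [Ring A] [Algebra K A]
    [Module O A] (H : Subalgebra K A) (S : Set A) : Prop where
  subset : S ⊆ (H : Set A)
  one_mem : (1 : A) ∈ S
  mul_mem : ∀ x ∈ S, ∀ y ∈ S, x * y ∈ S
  fg : ∃ M : Submodule O A, M.FG ∧ (M : Set A) = S
  span : Submodule.span K S = Subalgebra.toSubmodule H

/-- The ring of integers of a `p`-adic field `F`: the subring of all elements of `F` that are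
integral over `ℤ_p`. -/
noncomputable def integers (p : ℕ) [Fact p.Prime] (F : Type*) [Field F] [Algebra ℚ_[p] F] :
    Subring F :=
  letI : Algebra ℤ_[p] F := ((algebraMap ℚ_[p] F).comp (algebraMap ℤ_[p] ℚ_[p])).toAlgebra
  (integralClosure ℤ_[p] F).toSubring

/-- The left regular representation `λ : G → Perm(G)`, `λ(g)(h) = g h`. -/
def leftReg (G : Type*) [Group G] : G →* Equiv.Perm G where
  toFun g := Equiv.mulLeft g
  map_one' := by ext; simp
  map_mul' g h := by ext; simp

section Galois

variable (K L : Type*) [Field K] [Field L] [Algebra K L]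

/-- The group `N = λ(G)` for `G` the automorphism group of `L/K`. -/
abbrev N : Subgroup (Equiv.Perm (L ≃ₐ[K] L)) := (leftReg (L ≃ₐ[K] L)).range

variable {K L}

/-- `λ(g)` as an element of `N`. -/
def lam (g : L ≃ₐ[K] L) : N K L := ⟨leftReg _ g, g, rfl⟩

/-- The action of `g ∈ G` on `L[N]`: the ring homomorphism which sends `Σ c_n n` to
`Σ g(c_n) λ(g) n λ(g)⁻¹`. -/
noncomputable def galAct (g : L ≃ₐ[K] L) :
    MonoidAlgebra L (N K L) →+* MonoidAlgebra L (N K L) :=
  (MonoidAlgebra.mapDomainRingHom L (MulAut.conj (lam g)).toMonoidHom).comp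
    (MonoidAlgebra.mapRingHom (N K L) (g : L →+* L))

variable (K L)

/-- The Hopf algebra `H_λ = L[N]^G`, as a `K`-subalgebra of `L[N]`. -/
noncomputable def hopf : Subalgebra K (MonoidAlgebra L (N K L)) where
  carrier := {h | ∀ g : L ≃ₐ[K] L, galAct g h = h}
  mul_mem' := fun ha hb g => by rw [map_mul, ha g, hb g]
  add_mem' := fun ha hb g => by rw [map_add, ha g, hb g]
  algebraMap_mem' := fun r g => by
    simp [galAct, Algebra.algebraMap_eq_smul_one, MonoidAlgebra.one_def]

variable {K L}

/-- The action of `L[N]` on `L`: `(Σ c_n n) · x = Σ c_n (n⁻¹(1_G))(x)`. -/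
noncomputable def act (h : MonoidAlgebra L (N K L)) (x : L) : L :=
  h.coeff.sum fun n c => c * ((n : Equiv.Perm (L ≃ₐ[K] L))⁻¹ 1) x

/-- The associated order of a set `OL ⊆ L` in `H_λ`: all `h ∈ H_λ` with `h · OL ⊆ OL`. -/
def assocOrder (K : Type*) {L : Type*} [Field K] [Field L] [Algebra K L] (OL : Set L) :
    Set (MonoidAlgebra L (N K L)) :=
  {h | h ∈ hopf K L ∧ ∀ x ∈ OL, act h x ∈ OL}

theorem galAct_single (g : L ≃ₐ[K] L) (n : N K L) (c : L) :
    galAct g (MonoidAlgebra.single n c) =
      MonoidAlgebra.single (lam g * n * (lam g)⁻¹) (g c) := by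
  simp [galAct]

theorem lam_inv_one (g : L ≃ₐ[K] L) :
    ((lam g : N K L) : Equiv.Perm (L ≃ₐ[K] L))⁻¹ 1 = g⁻¹ := by
  rw [Equiv.Perm.inv_eq_iff_eq]
  simp [lam, leftReg]

theorem lam_mul (g k : L ≃ₐ[K] L) : (lam (g * k) : N K L) = lam g * lam k := by
  apply Subtype.ext
  simp [lam]

theorem lam_inv (g : L ≃ₐ[K] L) : (lam g⁻¹ : N K L) = (lam g)⁻¹ := by
  apply Subtype.ext
  simp [lam]

theorem lam_bijective : Function.Bijective (lam : (L ≃ₐ[K] L) → N K L) := by
  constructor
  · intro g k h
    have h1 := lam_inv_one g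
    rw [h, lam_inv_one k] at h1
    exact (inv_injective h1).symm
  · rintro ⟨_, g, rfl⟩
    exact ⟨g, rfl⟩

/-- The bijection `λ : G → N`. -/
noncomputable def lamEquiv : (L ≃ₐ[K] L) ≃ N K L := Equiv.ofBijective lam lam_bijective

theorem coeff_galAct (g k : L ≃ₐ[K] L) (h : MonoidAlgebra L (N K L)) :
    (galAct g h).coeff (lam (g * k * g⁻¹)) = g (h.coeff (lam k)) := by
  have h1 : lam (g * k * g⁻¹) = (MulAut.conj (lam g)).toMonoidHom (lam k) := by
    rw [lam_mul, lam_mul, lam_inv]
    simp
  rw [h1, galAct, RingHom.comp_apply]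
  have h2 : Function.Injective (MulAut.conj (lam g)).toMonoidHom := (MulAut.conj (lam g)).injective
  have h3 := Finsupp.mapDomain_apply h2
    ((MonoidAlgebra.mapRingHom (N K L) (g : L →+* L)) h).coeff (lam k)
  rw [MonoidAlgebra.coeff_mapRingHom] at h3
  exact h3

theorem mem_hopf_iff {h : MonoidAlgebra L (N K L)} :
    h ∈ hopf K L ↔ ∀ g k : L ≃ₐ[K] L, h.coeff (lam (g * k * g⁻¹)) = g (h.coeff (lam k)) := by
  constructor
  · intro hh g k
    rw [← coeff_galAct, hh g]
  · intro hh g
    apply MonoidAlgebra.ext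
    ext n
    obtain ⟨k', rfl⟩ := lam_bijective.2 n
    obtain ⟨k, rfl⟩ : ∃ k, k' = g * k * g⁻¹ := ⟨g⁻¹ * k' * g, by group⟩
    rw [coeff_galAct, hh]

variable [FiniteDimensional K L]

theorem act_eq (h : MonoidAlgebra L (N K L)) (x : L) :
    act h x = ∑ g : L ≃ₐ[K] L, h.coeff (lam g) * g⁻¹ x := by
  classical
  let _ : Fintype (N K L) := Fintype.ofEquiv _ lamEquiv
  rw [act, Finsupp.sum_fintype _ _ (fun n => zero_mul _), ← lamEquiv.sum_comp]
  refine Finset.sum_congr rfl fun g _ => ?_
  have : lamEquiv g = lam g := rfl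
  rw [this, lam_inv_one]

/-- `act` as a linear map. -/
noncomputable def actLin (K L : Type*) [Field K] [Field L] [Algebra K L] [FiniteDimensional K L] :
    MonoidAlgebra L (N K L) →ₗ[K] (L →ₗ[K] L) where
  toFun h :=
    { toFun := act h
      map_add' := fun x y => by simp only [act_eq, map_add, mul_add, Finset.sum_add_distrib]
      map_smul' := fun c x => by
        simp only [act_eq, map_smul, mul_smul_comm, Finset.smul_sum, RingHom.id_apply] }
  map_add' h k := by
    ext x
    simp only [LinearMap.coe_mk, AddHom.coe_mk, LinearMap.add_apply, act_eq,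
      MonoidAlgebra.coeff_add, Finsupp.add_apply, add_mul, Finset.sum_add_distrib]
  map_smul' c h := by
    ext x
    simp only [LinearMap.coe_mk, AddHom.coe_mk, LinearMap.smul_apply, act_eq,
      MonoidAlgebra.coeff_smul, Finsupp.smul_apply, smul_mul_assoc, Finset.smul_sum,
      RingHom.id_apply]

theorem actLin_apply (h : MonoidAlgebra L (N K L)) (x : L) : actLin K L h x = act h x := rfl

theorem act_single_mul (g : L ≃ₐ[K] L) (c : L) {h : MonoidAlgebra L (N K L)} (hh : h ∈ hopf K L)
    (x : L) : act (MonoidAlgebra.single (lam g) c * h) x =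
      act (MonoidAlgebra.single (lam g) c) (act h x) := by
  have e1 : ∀ y, act (MonoidAlgebra.single (lam g) c) y = c * g⁻¹ y := by
    intro y
    rw [act, MonoidAlgebra.coeff_single, Finsupp.sum_single_index (zero_mul _), lam_inv_one]
  rw [e1, act_eq, act_eq, map_sum, Finset.mul_sum]
  rw [← Equiv.sum_comp (Equiv.mulLeft g)
    (fun k => (MonoidAlgebra.single (lam g) c * h).coeff (lam k) * k⁻¹ x)]
  rw [← Equiv.sum_comp (MulAut.conj g).toEquiv
    (fun k => c * g⁻¹ (h.coeff (lam k) * k⁻¹ x))]
  refine Finset.sum_congr rfl fun k _ => ?_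
  have e2 : (MulAut.conj g).toEquiv k = g * k * g⁻¹ := rfl
  have e3 : Equiv.mulLeft g k = g * k := rfl
  rw [e2, e3, mem_hopf_iff.mp hh g k, lam_mul, MonoidAlgebra.coeff_single_mul_mul, map_mul]
  have e4 : g⁻¹ (g (h.coeff (lam k))) = h.coeff (lam k) := by
    rw [← AlgEquiv.mul_apply, inv_mul_cancel, AlgEquiv.one_apply]
  have e5 : g⁻¹ ((g * k * g⁻¹)⁻¹ x) = (g * k)⁻¹ x := by
    rw [← AlgEquiv.mul_apply]
    congr 1
    group
  rw [e4, e5, mul_assoc]

theorem act_mul (h' : MonoidAlgebra L (N K L)) {h : MonoidAlgebra L (N K L)}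
    (hh : h ∈ hopf K L) (x : L) : act (h' * h) x = act h' (act h x) := by
  induction h' using MonoidAlgebra.induction_linear with
  | zero => rw [zero_mul, ← actLin_apply, ← actLin_apply, map_zero]; rfl
  | add f g hf hg =>
    rw [add_mul, ← actLin_apply, map_add, LinearMap.add_apply, actLin_apply, actLin_apply, hf, hg,
      ← actLin_apply f, ← actLin_apply g, ← actLin_apply (f + g), map_add, LinearMap.add_apply]
  | single n c =>
    obtain ⟨g, rfl⟩ := lam_bijective.2 n
    exact act_single_mul g c hh x

omit [FiniteDimensional K L] in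
theorem act_one (x : L) : act (1 : MonoidAlgebra L (N K L)) x = x := by
  rw [act, MonoidAlgebra.one_def, MonoidAlgebra.coeff_single,
    Finsupp.sum_single_index (zero_mul _)]
  simp

/-- The action of `H_λ` on `L` as an algebra homomorphism to `End_K(L)`. -/
noncomputable def hopfHom (K L : Type*) [Field K] [Field L] [Algebra K L]
    [FiniteDimensional K L] : hopf K L →ₐ[K] Module.End K L :=
  AlgHom.ofLinearMap ((actLin K L).comp (hopf K L).val.toLinearMap)
    (by ext x; exact act_one x)
    (by intro a b; ext x; exact act_mul a.1 b.2 x)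

theorem hopfHom_apply (h : hopf K L) (x : L) : hopfHom K L h x = act h.1 x := rfl

theorem act_comm {h : MonoidAlgebra L (N K L)} (hh : h ∈ hopf K L) (g : L ≃ₐ[K] L) (x : L) :
    act h (g x) = g (act h x) := by
  rw [act_eq, act_eq, map_sum]
  rw [← Equiv.sum_comp (MulAut.conj g).toEquiv]
  refine Finset.sum_congr rfl fun k _ => ?_
  have e2 : (MulAut.conj g).toEquiv k = g * k * g⁻¹ := rfl
  rw [e2, mem_hopf_iff.mp hh g k, map_mul, ← AlgEquiv.mul_apply, ← AlgEquiv.mul_apply]
  congr 2
  group

/-! ## Every endomorphism commuting with `G` comes from `H_λ` -/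

omit [FiniteDimensional K L] in
theorem linearIndependent_inv :
    LinearIndependent L (fun g : L ≃ₐ[K] L => ((g⁻¹ : L ≃ₐ[K] L) : L →ₐ[K] L).toLinearMap) := by
  have h := linearIndependent_toLinearMap K L L
  refine h.comp (fun g : L ≃ₐ[K] L => ((g⁻¹ : L ≃ₐ[K] L) : L →ₐ[K] L)) ?_
  intro a b hab
  have : a⁻¹ = b⁻¹ := by
    ext x
    exact congrArg (fun f : L →ₐ[K] L => f x) hab
  exact inv_injective this

theorem coeff_unique {c d : (L ≃ₐ[K] L) → L}
    (h : ∀ x, ∑ g : L ≃ₐ[K] L, c g * g⁻¹ x = ∑ g : L ≃ₐ[K] L, d g * g⁻¹ x) : c = d := by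
  have h1 := Fintype.linearIndependent_iff.mp (linearIndependent_inv (K := K) (L := L))
    (fun g => c g - d g) (by
      ext x
      simp only [LinearMap.sum_apply, LinearMap.smul_apply, AlgHom.toLinearMap_apply,
        LinearMap.zero_apply, smul_eq_mul, sub_mul, Finset.sum_sub_distrib]
      exact sub_eq_zero.mpr (h x))
  ext g
  exact sub_eq_zero.mp (h1 g)

theorem act_injective {h k : MonoidAlgebra L (N K L)} (hk : ∀ x, act h x = act k x) : h = k := by
  have h1 : (fun g : L ≃ₐ[K] L => h.coeff (lam g)) = fun g => k.coeff (lam g) := by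
    apply coeff_unique
    intro x
    rw [← act_eq, ← act_eq, hk]
  apply MonoidAlgebra.ext
  ext n
  obtain ⟨g, rfl⟩ := lam_bijective.2 n
  exact congrFun h1 g

variable [IsGalois K L]

theorem exists_coeff (f : L →ₗ[K] L) :
    ∃ c : (L ≃ₐ[K] L) → L, ∀ x, f x = ∑ g : L ≃ₐ[K] L, c g * g⁻¹ x := by
  have hcard : Fintype.card (L ≃ₐ[K] L) = Module.finrank L (L →ₗ[K] L) := by
    rw [Module.finrank_linearMap_self, ← Nat.card_eq_fintype_card, IsGalois.card_aut_eq_finrank]
  have hspan := (linearIndependent_inv (K := K) (L := L)).span_eq_top_of_card_eq_finrank' hcard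
  have hf : f ∈ Submodule.span L (Set.range
      (fun g : L ≃ₐ[K] L => ((g⁻¹ : L ≃ₐ[K] L) : L →ₐ[K] L).toLinearMap)) := by
    rw [hspan]; trivial
  obtain ⟨c, hc⟩ := (Submodule.mem_span_range_iff_exists_fun L).mp hf
  refine ⟨c, fun x => ?_⟩
  rw [← hc]
  simp

theorem exists_hopf (f : L →ₗ[K] L) (hf : ∀ (g : L ≃ₐ[K] L) (x : L), f (g x) = g (f x)) :
    ∃ h ∈ hopf K L, ∀ x, act h x = f x := by
  obtain ⟨c, hc⟩ := exists_coeff f
  let h : MonoidAlgebra L (N K L) := ∑ g : L ≃ₐ[K] L, MonoidAlgebra.single (lam g) (c g)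
  have hco : ∀ g, h.coeff (lam g) = c g := by
    intro g
    classical
    simp only [h, MonoidAlgebra.coeff_sum, Finsupp.finsetSum_apply, MonoidAlgebra.coeff_single]
    rw [Finset.sum_eq_single g]
    · exact Finsupp.single_eq_same
    · intro k _ hk
      exact Finsupp.single_eq_of_ne (fun h => hk (lam_bijective.1 h.symm))
    · simp
  have hact : ∀ x, act h x = f x := by
    intro x
    rw [act_eq, hc]
    simp only [hco]
  refine ⟨h, ?_, hact⟩
  rw [mem_hopf_iff]
  intro g k
  have key : (fun m => h.coeff (lam (g * m))) = fun m => g (h.coeff (lam (m * g))) := by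
    apply coeff_unique
    intro x
    have h1 := hf g x
    rw [← hact, ← hact, act_eq, act_eq, map_sum,
      ← Equiv.sum_comp (Equiv.mulLeft g), ← Equiv.sum_comp (Equiv.mulRight g)
        (fun k => g (h.coeff (lam k) * k⁻¹ x))] at h1
    convert h1 using 2 with m _ m _
    · have e1 : Equiv.mulLeft g m = g * m := rfl
      rw [e1, ← AlgEquiv.mul_apply]
      congr 2
      group
    · have e1 : Equiv.mulRight g m = m * g := rfl
      rw [e1, map_mul, ← AlgEquiv.mul_apply]
      congr 2
      group
  have h2 := congrFun key (k * g⁻¹)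
  simp only [inv_mul_cancel_right, ← mul_assoc] at h2
  exact h2

end Galois

/-! ## Integrality of traces and the inverse different -/

/-- The trace of an endomorphism that is integral over `R` is integral over `R`. -/
theorem isIntegral_trace_end {R K V : Type*} [CommRing R] [Field K] [Algebra R K]
    [AddCommGroup V] [Module K V] [FiniteDimensional K V] [Algebra R (Module.End K V)]
    [IsScalarTower R K (Module.End K V)]
    {f : Module.End K V} (hf : IsIntegral R f) : IsIntegral R (LinearMap.trace K V f) := by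
  obtain ⟨q, hq, hqf⟩ := hf
  let F := AlgebraicClosure K
  let g : Module.End F (F ⊗[K] V) := f.baseChange F
  have hg : aeval g (q.map (algebraMap R F)) = 0 := by
    have h1 : aeval f (q.map (algebraMap R K)) = 0 := by
      rw [aeval_map_algebraMap]
      exact hqf
    have h2 : aeval (Module.End.baseChangeHom K F V f) (q.map (algebraMap R K)) = 0 := by
      rw [aeval_algHom_apply, h1, map_zero]
    have h3 : aeval g ((q.map (algebraMap R K)).map (algebraMap K F)) = 0 := by
      rw [aeval_map_algebraMap]
      exact h2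
    rwa [Polynomial.map_map, ← IsScalarTower.algebraMap_eq] at h3
  have hs : g.charpoly.Splits := IsAlgClosed.splits _
  have ht : algebraMap K F (LinearMap.trace K V f) = g.charpoly.roots.sum := by
    rw [← Module.End.trace_eq_sum_roots_charpoly_of_splits hs]
    exact (LinearMap.trace_baseChange f F).symm
  rw [← isIntegral_algebraMap_iff (algebraMap K F).injective, ht]
  refine IsIntegral.multiset_sum ?_
  intro μ hμ
  have hroot : g.charpoly.IsRoot μ := isRoot_of_mem_roots hμ
  rw [← Module.End.hasEigenvalue_iff_isRoot_charpoly] at hroot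
  obtain ⟨v, hv⟩ := hroot.exists_hasEigenvector
  have h4 := Module.End.aeval_apply_of_hasEigenvector (p := q.map (algebraMap R F)) hv
  rw [hg, LinearMap.zero_apply] at h4
  have h5 : (q.map (algebraMap R F)).eval μ = 0 := by
    rcases smul_eq_zero.mp h4.symm with h | h
    · exact h
    · exact absurd h hv.2
  exact ⟨q, hq, by rwa [eval_map] at h5⟩

/-- If `Tr (b y)` is integral for every `b` in the inverse different, `y` is integral. -/
theorem isIntegral_of_dual (R K : Type*) {L : Type*} [CommRing R] [IsDedekindDomain R] [Field K]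
    [Field L] [Algebra R K] [IsFractionRing R K] [Algebra R L] [Algebra K L]
    [IsScalarTower R K L] [FiniteDimensional K L] [Algebra.IsSeparable K L] (y : L)
    (h : ∀ b : L, (∀ a : L, IsIntegral R a → IsIntegral R (Algebra.trace K L (b * a))) →
      IsIntegral R (Algebra.trace K L (b * y))) : IsIntegral R y := by
  have : IsDedekindDomain (integralClosure R L) := integralClosure.isDedekindDomain R K L
  have : IsFractionRing (integralClosure R L) L :=
    IsIntegralClosure.isFractionRing_of_finite_extension R K L (integralClosure R L)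
  have h10 : (1 : FractionalIdeal (integralClosure R L)⁰ L) ≠ 0 := one_ne_zero
  have key : y ∈ FractionalIdeal.dual R K (FractionalIdeal.dual R K
      (1 : FractionalIdeal (integralClosure R L)⁰ L)) := by
    rw [FractionalIdeal.mem_dual (FractionalIdeal.dual_ne_zero R K h10)]
    intro b hb
    rw [FractionalIdeal.mem_dual h10] at hb
    rw [Algebra.traceForm_apply, mul_comm]
    apply IsIntegrallyClosed.isIntegral_iff.mp
    apply h
    intro a ha
    have h1 := hb a ((FractionalIdeal.mem_one_iff _).mpr ⟨⟨a, ha⟩, rfl⟩)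
    rw [Algebra.traceForm_apply] at h1
    exact IsIntegrallyClosed.isIntegral_iff.mpr h1
  rw [FractionalIdeal.dual_dual, FractionalIdeal.mem_one_iff] at key
  obtain ⟨x, rfl⟩ := key
  exact x.2

/-! ## The main step -/

section Main

variable (R : Type*) {K L : Type*} [CommRing R] [IsDedekindDomain R] [Field K] [Field L]
  [Algebra R K] [IsFractionRing R K] [Algebra R L] [Algebra K L] [IsScalarTower R K L]
  [FiniteDimensional K L] [IsGalois K L]

/-- If `γ β` is integral over `R` for every `β` in the associated order, then `γ` is in the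
associated order. -/
theorem act_mem_of_integral {n' : R} (hn : n' * (Fintype.card (L ≃ₐ[K] L) : R) = 1)
    {γ : MonoidAlgebra L (N K L)} (hγ : γ ∈ hopf K L)
    (h : ∀ β ∈ hopf K L, (∀ x : L, IsIntegral R x → IsIntegral R (act β x)) →
      IsIntegral R (γ * β)) (a : L) (ha : IsIntegral R a) : IsIntegral R (act γ a) := by
  apply isIntegral_of_dual R K
  intro b hb
  -- the rank one map
  let φ : L →ₗ[K] L := ((Algebra.trace K L).comp (LinearMap.mulLeft K b)).smulRight a
  have hφ : ∀ x, φ x = Algebra.trace K L (b * x) • a := fun x => rfl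
  have hφi : ∀ x, IsIntegral R x → IsIntegral R (φ x) := by
    intro x hx
    rw [hφ, Algebra.smul_def]
    exact ((hb x hx).map (IsScalarTower.toAlgHom R K L)).mul ha
  -- its average
  let c : K := algebraMap R K n'
  have hc : c * (Fintype.card (L ≃ₐ[K] L) : K) = 1 := by
    have := congrArg (algebraMap R K) hn
    rwa [map_mul, map_natCast, map_one] at this
  let conj : (L ≃ₐ[K] L) → (L →ₗ[K] L) := fun g =>
    (g.toLinearMap.comp φ).comp (g⁻¹ : L ≃ₐ[K] L).toLinearMap
  have hconj : ∀ g x, conj g x = g (φ (g⁻¹ x)) := fun g x => rfl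
  let ψ : L →ₗ[K] L := c • ∑ g, conj g
  have hψ : ∀ x, ψ x = c • ∑ g : L ≃ₐ[K] L, g (φ (g⁻¹ x)) := by
    intro x
    simp only [ψ, LinearMap.smul_apply, LinearMap.sum_apply, hconj]
  have hint : ∀ (g : L ≃ₐ[K] L) (x : L), IsIntegral R x → IsIntegral R (g x) := by
    intro g x hx
    exact hx.map (g.toAlgHom.restrictScalars R)
  have hψi : ∀ x, IsIntegral R x → IsIntegral R (ψ x) := by
    intro x hx
    rw [hψ, Algebra.smul_def]
    refine IsIntegral.mul ?_ (IsIntegral.sum _ fun g _ => hint g _ (hφi _ (hint _ _ hx)))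
    rw [← IsScalarTower.algebraMap_apply]
    exact isIntegral_algebraMap
  have hψc : ∀ (g : L ≃ₐ[K] L) (x : L), ψ (g x) = g (ψ x) := by
    intro g x
    rw [hψ, hψ, map_smul, map_sum, ← Equiv.sum_comp (Equiv.mulLeft g)]
    congr 1
    refine Finset.sum_congr rfl fun k _ => ?_
    have e1 : Equiv.mulLeft g k = g * k := rfl
    rw [e1, AlgEquiv.mul_apply]
    congr 3
    rw [← AlgEquiv.mul_apply]
    congr 1
    group
  obtain ⟨β, hβ, hβψ⟩ := exists_hopf ψ hψc
  have h1 := h β hβ (fun x hx => by rw [hβψ]; exact hψi x hx)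
  have h2 : IsIntegral R (⟨γ * β, mul_mem hγ hβ⟩ : hopf K L) := by
    rw [← isIntegral_algHom_iff ((hopf K L).val.restrictScalars R) Subtype.val_injective]
    exact h1
  have h3 := isIntegral_trace_end (h2.map ((hopfHom K L).restrictScalars R))
  -- the linear map given by `γ`
  let f : Module.End K L := hopfHom K L ⟨γ, hγ⟩
  have hf : ∀ x, f x = act γ x := fun x => rfl
  have h4 : ((hopfHom K L).restrictScalars R) (⟨γ * β, mul_mem hγ hβ⟩ : hopf K L) =
      c • ∑ g, f * (g.toLinearMap * φ * (g⁻¹ : L ≃ₐ[K] L).toLinearMap : Module.End K L) := by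
    ext x
    have e1 : ((hopfHom K L).restrictScalars R) (⟨γ * β, mul_mem hγ hβ⟩ : hopf K L) x =
        f (ψ x) := by
      rw [hf, ← hβψ, ← act_mul γ hβ]
      rfl
    rw [e1, hψ, map_smul, map_sum, LinearMap.smul_apply, LinearMap.sum_apply]
    rfl
  rw [h4, map_smul, map_sum] at h3
  have h5 : ∀ g : L ≃ₐ[K] L, LinearMap.trace K L
      (f * (g.toLinearMap * φ * (g⁻¹ : L ≃ₐ[K] L).toLinearMap : Module.End K L)) =
      Algebra.trace K L (b * act γ a) := by
    intro g
    have e1 : f * (g.toLinearMap * φ * (g⁻¹ : L ≃ₐ[K] L).toLinearMap : Module.End K L) =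
        (g.toLinearMap : Module.End K L) * (f * φ * (g⁻¹ : L ≃ₐ[K] L).toLinearMap) := by
      ext x
      change f (g (φ (g⁻¹ x))) = g (f (φ (g⁻¹ x)))
      rw [hf, hf, act_comm hγ]
    have e2 : f * φ * (g⁻¹ : L ≃ₐ[K] L).toLinearMap * (g.toLinearMap : Module.End K L) =
        f * φ := by
      ext x
      change f (φ (g⁻¹ (g x))) = f (φ x)
      rw [← AlgEquiv.mul_apply, inv_mul_cancel, AlgEquiv.one_apply]
    rw [e1, LinearMap.trace_mul_comm, e2]
    have e3 : f * φ = ((Algebra.trace K L).comp (LinearMap.mulLeft K b)).smulRight (f a) := by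
      ext x
      change f (Algebra.trace K L (b * x) • a) = Algebra.trace K L (b * x) • f a
      rw [map_smul]
    rw [e3, LinearMap.trace_smulRight]
    rfl
  rw [Finset.sum_congr rfl fun g _ => h5 g, Finset.sum_const, Finset.card_univ,
    nsmul_eq_mul, smul_eq_mul, ← mul_assoc, hc, one_mul] at h3
  exact h3

/-- The associated order as an `R`-submodule. -/
noncomputable def assocSub : Submodule R (MonoidAlgebra L (N K L)) where
  carrier := assocOrder K {x : L | IsIntegral R x}
  zero_mem' := ⟨zero_mem _, fun x _ => by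
    rw [← actLin_apply, map_zero]
    exact isIntegral_zero⟩
  add_mem' := fun {h k} hh hk => ⟨add_mem hh.1 hk.1, fun x hx => by
    rw [← actLin_apply, map_add]
    exact (hh.2 x hx).add (hk.2 x hx)⟩
  smul_mem' := fun r h hh => by
    have e : r • h = algebraMap R K r • h := (algebraMap_smul K r h).symm
    rw [e]
    refine ⟨Subalgebra.smul_mem _ hh.1 _, fun x hx => ?_⟩
    rw [← actLin_apply, map_smul, LinearMap.smul_apply, algebraMap_smul]
    exact (hh.2 x hx).smul r

theorem assocSub_fg : (assocSub R : Submodule R (MonoidAlgebra L (N K L))).FG := by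
  obtain ⟨s, b, hb⟩ := FiniteDimensional.exists_is_basis_integral R K L
  have : IsNoetherian R (integralClosure R L) :=
    IsIntegralClosure.isNoetherian R K L (integralClosure R L)
  let f : (assocSub R : Submodule R (MonoidAlgebra L (N K L))) →ₗ[R]
      (s → integralClosure R L) :=
    { toFun := fun h i => ⟨act h.1 (b i), h.2.2 _ (hb i)⟩
      map_add' := fun h k => by
        ext i
        change actLin K L (h.1 + k.1) (b i) = _
        rw [map_add]
        rfl
      map_smul' := fun r h => by
        ext i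
        change actLin K L (r • h.1) (b i) = r • act h.1 (b i)
        rw [← algebraMap_smul K r h.1, map_smul, LinearMap.smul_apply, algebraMap_smul]
        rfl }
  have hf : Function.Injective f := by
    intro h k hhk
    apply Subtype.ext
    apply act_injective
    have h1 : actLin K L h.1 = actLin K L k.1 := by
      apply b.ext
      intro i
      have := congrFun hhk i
      exact congrArg Subtype.val this
    intro x
    exact congrArg (fun g => g x) h1
  have h1 : Module.Finite R (assocSub R : Submodule R (MonoidAlgebra L (N K L))) :=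
    Module.Finite.of_injective f hf
  exact Module.Finite.iff_fg.mp h1

theorem exists_smul_mem {h : MonoidAlgebra L (N K L)} (hh : h ∈ hopf K L) :
    ∃ r : R, r ≠ 0 ∧ algebraMap R K r • h ∈ assocOrder K {x : L | IsIntegral R x} := by
  classical
  have hN : IsNoetherian R (integralClosure R L) :=
    IsIntegralClosure.isNoetherian R K L (integralClosure R L)
  obtain ⟨t, ht⟩ : (⊤ : Submodule R (integralClosure R L)).FG := hN.noetherian ⊤
  obtain ⟨r, hr, hr2⟩ := exists_integral_multiples R K
    (t.image (fun x : integralClosure R L => act h (x : L)))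
  refine ⟨r, hr, Subalgebra.smul_mem _ hh _, ?_⟩
  intro x hx
  have key : ∀ y : integralClosure R L, IsIntegral R (act (algebraMap R K r • h) (y : L)) := by
    intro y
    have hy : y ∈ Submodule.span R (t : Set (integralClosure R L)) := by rw [ht]; trivial
    induction hy using Submodule.span_induction with
    | mem z hz =>
      rw [← actLin_apply, map_smul, LinearMap.smul_apply, algebraMap_smul]
      exact hr2 _ (Finset.mem_image_of_mem (fun x : integralClosure R L => act h (x : L)) hz)
    | zero =>
      rw [← actLin_apply]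
      simp only [ZeroMemClass.coe_zero, map_zero]
      exact isIntegral_zero
    | add z w _ _ hz hw =>
      rw [← actLin_apply] at hz hw ⊢
      simp only [Subalgebra.coe_add, map_add]
      exact hz.add hw
    | smul a z _ hz =>
      rw [← actLin_apply] at hz ⊢
      have e : ((a • z : integralClosure R L) : L) = algebraMap R K a • (z : L) := by
        rw [algebraMap_smul]
        rfl
      rw [e, map_smul, algebraMap_smul]
      exact hz.smul a
  exact key ⟨x, hx⟩

theorem assocOrder_isOrder :
    IsOrder R (hopf K L) (assocOrder K {x : L | IsIntegral R x}) where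
  subset := fun h hh => hh.1
  one_mem := ⟨one_mem _, fun x hx => by rw [act_one]; exact hx⟩
  mul_mem := fun h hh k hk => ⟨mul_mem hh.1 hk.1, fun x hx => by
    rw [act_mul _ hk.1]
    exact hh.2 _ (hk.2 x hx)⟩
  fg := ⟨assocSub R, assocSub_fg R, rfl⟩
  span := by
    apply le_antisymm
    · rw [Submodule.span_le]
      exact fun h hh => hh.1
    · intro h hh
      obtain ⟨r, hr, hrh⟩ := exists_smul_mem R hh
      have hr' : algebraMap R K r ≠ 0 := by
        rw [Ne, FaithfulSMul.algebraMap_eq_zero_iff]
        exact hr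
      rw [← inv_smul_smul₀ hr' h]
      exact Submodule.smul_mem _ _ (Submodule.subset_span hrh)

/-- **Maximality over a Dedekind domain `R` with fraction field `K` in which the degree is
invertible.** -/
theorem maximal_of_dedekind {n' : R} (hn : n' * (Fintype.card (L ≃ₐ[K] L) : R) = 1) :
    Maximal (IsOrder R (hopf K L)) (assocOrder K {x : L | IsIntegral R x}) := by
  refine ⟨assocOrder_isOrder R, ?_⟩
  intro Γ hΓ hle γ hγ
  refine ⟨hΓ.subset hγ, ?_⟩
  intro a ha
  refine act_mem_of_integral R hn (hΓ.subset hγ) ?_ a ha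
  intro β hβ hβi
  obtain ⟨M, hM, hMΓ⟩ := hΓ.fg
  have hmem : ∀ x, x ∈ M ↔ x ∈ Γ := fun x => by rw [← hMΓ]; rfl
  let A : Subalgebra R (MonoidAlgebra L (N K L)) :=
    { carrier := Γ
      mul_mem' := fun {x y} hx hy => hΓ.mul_mem x hx y hy
      add_mem' := fun {x y} hx hy => by
        rw [← hmem] at hx hy ⊢
        exact add_mem hx hy
      algebraMap_mem' := fun r => by
        rw [Algebra.algebraMap_eq_smul_one, ← hmem]
        exact M.smul_mem r ((hmem 1).mpr hΓ.one_mem) }
  have hA : Subalgebra.toSubmodule A = M := by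
    ext x
    exact (hmem x).symm
  refine IsIntegral.of_mem_of_fg A (by rw [hA]; exact hM) _ ?_
  exact hΓ.mul_mem _ hγ _ (hle ⟨hβ, hβi⟩)

end Main

/-! ## `p`-adic fields -/

section Padic

variable (p : ℕ) [Fact p.Prime]

theorem mem_integers {F : Type*} [Field F] [Algebra ℚ_[p] F] {x : F} :
    x ∈ integers p F ↔
      ((algebraMap ℚ_[p] F).comp (algebraMap ℤ_[p] ℚ_[p])).IsIntegralElem x := Iff.rfl

variable (K L : Type*) [Field K] [Algebra ℚ_[p] K] [FiniteDimensional ℚ_[p] K]
  [Field L] [Algebra ℚ_[p] L] [Algebra K L] [IsScalarTower ℚ_[p] K L]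

instance integers_isDedekindDomain : IsDedekindDomain (integers p K) := by
  let _ : Algebra ℤ_[p] K := ((algebraMap ℚ_[p] K).comp (algebraMap ℤ_[p] ℚ_[p])).toAlgebra
  have : IsScalarTower ℤ_[p] ℚ_[p] K := IsScalarTower.of_algebraMap_eq fun x => rfl
  exact integralClosure.isDedekindDomain ℤ_[p] ℚ_[p] K

instance integers_isFractionRing : IsFractionRing (integers p K) K := by
  let _ : Algebra ℤ_[p] K := ((algebraMap ℚ_[p] K).comp (algebraMap ℤ_[p] ℚ_[p])).toAlgebra
  have : IsScalarTower ℤ_[p] ℚ_[p] K := IsScalarTower.of_algebraMap_eq fun x => rfl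
  exact integralClosure.isFractionRing_of_finite_extension ℚ_[p] K

variable {K L}

omit [FiniteDimensional ℚ_[p] K] in
theorem isIntegral_integers_iff {x : L} : IsIntegral (integers p K) x ↔ x ∈ integers p L := by
  let _ : Algebra ℤ_[p] K := ((algebraMap ℚ_[p] K).comp (algebraMap ℤ_[p] ℚ_[p])).toAlgebra
  let _ : Algebra ℤ_[p] L := ((algebraMap ℚ_[p] L).comp (algebraMap ℤ_[p] ℚ_[p])).toAlgebra
  have : IsScalarTower ℤ_[p] K L := IsScalarTower.of_algebraMap_eq fun x => by
    exact IsScalarTower.algebraMap_apply ℚ_[p] K L (algebraMap ℤ_[p] ℚ_[p] x)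
  constructor
  · intro h
    have h1 : IsIntegral (integralClosure ℤ_[p] K) x := h
    exact isIntegral_trans (R := ℤ_[p]) x h1
  · intro h
    have h1 : IsIntegral ℤ_[p] x := h
    have h2 : IsIntegral (integralClosure ℤ_[p] K) x := h1.tower_top
    exact h2

omit [FiniteDimensional ℚ_[p] K] in
theorem exists_inv {n : ℕ} (hn : ¬ p ∣ n) : ∃ n' : integers p K, n' * (n : integers p K) = 1 := by
  let _ : Algebra ℤ_[p] K := ((algebraMap ℚ_[p] K).comp (algebraMap ℤ_[p] ℚ_[p])).toAlgebra
  have h1 : IsUnit (n : ℤ_[p]) := by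
    rw [PadicInt.isUnit_iff, PadicInt.norm_natCast_eq_one_iff]
    exact ((Fact.out : p.Prime).coprime_iff_not_dvd).mpr hn
  obtain ⟨m, hm⟩ := h1.exists_left_inv
  have h2 : algebraMap ℤ_[p] K m * (n : K) = 1 := by
    have := congrArg (algebraMap ℤ_[p] K) hm
    rwa [map_mul, map_natCast, map_one] at this
  have h3 : IsIntegral ℤ_[p] (algebraMap ℤ_[p] K m) := isIntegral_algebraMap
  exact ⟨⟨algebraMap ℤ_[p] K m, h3⟩, Subtype.ext (by simpa using h2)⟩

end Padic

/-- **If `L/K` is a Galois extension of `p`-adic fields whose degree is prime to `p`, the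
associated order of the ring of integers of `L` in `H_λ` is a maximal order of `H_λ`.** -/
theorem result (p : ℕ) [Fact p.Prime] (K L : Type*) [Field K] [Algebra ℚ_[p] K]
    [FiniteDimensional ℚ_[p] K] [Field L] [Algebra ℚ_[p] L] [Algebra K L]
    [IsScalarTower ℚ_[p] K L] [FiniteDimensional K L] [IsGalois K L]
    (hp : ¬ p ∣ Module.finrank K L) :
    Maximal (IsOrder (integers p K) (hopf K L)) (assocOrder K (integers p L : Set L)) := by
  have hcard : Fintype.card (L ≃ₐ[K] L) = Module.finrank K L := by
    rw [← Nat.card_eq_fintype_card, IsGalois.card_aut_eq_finrank]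
  obtain ⟨n', hn'⟩ := exists_inv (K := K) p (hcard ▸ hp)
  have hset : (integers p L : Set L) = {x : L | IsIntegral (integers p K) x} := by
    ext x
    exact (isIntegral_integers_iff p).symm
  rw [hset]
  exact maximal_of_dedekind (integers p K) hn'

end Pool.Agent.Results.MP_46c6cb_nt.AssociatedOrder
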